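import Mathlib
import Pool.Agent.Lib.Pf72953.Defs
import Pool.Agent.Lib.Pf72953f.Defs

/-!
Pluricanonical forms twisted by the canonical bundle of the base: definitions.
-/

set_option autoImplicit false

open scoped WithZero

namespace Pf72953.Fib

/-- The sections of `m K_L + n K_B`: the `m`-fold `n_L`-forms `ω` on `L` (`n_L = dim L`) such that `ω ⊗ (dx)^n`,
`dx = dx_1 ∧ ⋯ ∧ dx_b` the pull-back of a form of top degree of `B`, is regular at all divisorial valuations `w` of `L`: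
its contractions `det (D_a x_b)^n ω` with the vector fields `D_1, …, D_b` regular at `w` are regular at `w`. -/
def twisted (k : Type*) {B : Type*} (L : Type*) [Field k] [Field B] [Field L] [Algebra k B]
    [Algebra k L] [Algebra B L] (x : Fin (dimension k B) → B) (m n : ℕ) :
    Set (PluriForm k L (dimension k L) m) :=
  {ω | ∀ w : Valuation L ℤᵐ⁰, IsDivisorial k L w →
    ∀ D : Fin (dimension k B) → Derivation k L L, (∀ a z, w z ≤ 1 → w (D a z) ≤ 1) →
      Matrix.det (Matrix.of fun a b => D a (algebraMap B L (x b))) ^ n • ω ∈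
        regularAt k (dimension k L) m w}

/-- There are numbers `m ≥ 1` and `n < (r - 1) m` and sections `f_l (dx ∧ ds⁽¹⁾ ∧ ⋯ ∧ ds⁽ʳ⁾)^m ⊗ (dx)^n`,
`f_l = ∑_a ∏_j i_j (y_{laj})`, `0 ≤ l ≤ c`, of `m K_L + n K_B` on the fibre power `L` of `E/B`
whose restrictions to the diagonal, with coefficients `ρ_l = ∑_a ∏_j y_{laj}`, satisfy: `ρ_0 ≠ 0` and the
ratios `ρ_l / ρ_0`, `1 ≤ l ≤ c`, are algebraically independent over the field `K₀`. -/
def TwDiagGE (k B K₀ E L : Type*) [Field k] [Field B] [Field K₀] [Field E] [Field L] [Algebra k B]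
    [Algebra K₀ E] [Algebra k L] [Algebra B E] [Algebra B L] {r : ℕ} (i : Fin r → E →ₐ[B] L)
    (c : ℕ) : Prop :=
  ∃ (m n N : ℕ) (x : Fin (dimension k B) → B) (s : Fin (dimension B E) → E)
    (e : Fin (dimension k L) ≃ Fin (dimension k B) ⊕ Fin r × Fin (dimension B E))
    (y : Fin (c + 1) → Fin N → Fin r → E),
    1 ≤ m ∧ n < (r - 1) * m ∧ IsTranscendenceBasis k x ∧ IsTranscendenceBasis B s ∧
    (∀ l, (∑ a, ∏ j, i j (y l a j)) • pureForm k (fun _ => coord i x s ∘ e) ∈
      twisted k L x m n) ∧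
    (∑ a, ∏ j, y 0 a j) ≠ 0 ∧
    AlgebraicIndependent K₀ (fun l : Fin c => (∑ a, ∏ j, y l.succ a j) / ∑ a, ∏ j, y 0 a j)

/-- There are numbers `m ≥ 1`, `n < q m` and `c + 1` sections of `m K_L + n K_B` whose ratios to the first
are algebraically independent over `k`. -/
def TwKodairaGE (k B L : Type*) [Field k] [Field B] [Field L] [Algebra k B] [Algebra k L]
    [Algebra B L] (q c : ℕ) : Prop :=
  ∃ (m n : ℕ) (x : Fin (dimension k B) → B), 1 ≤ m ∧ n < q * m ∧ IsTranscendenceBasis k x ∧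
    ∃ ω₀ ∈ twisted k L x m n, ω₀ ≠ 0 ∧
      ∃ f : Fin c → L, AlgebraicIndependent k f ∧ ∀ l, f l • ω₀ ∈ twisted k L x m n

end Pf72953.Fib
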