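import Mathlib
import Pool.Agent.Lib.Pf72953.Orb
import Pool.Agent.Lib.Pf72953f.RelW

/-!
Vector fields in the direction of the base.
-/

set_option autoImplicit false
set_option linter.style.haveILetI false

open scoped WithZero

namespace Pf72953.Fib

/-- derivations of the valuation ring on which the logarithmic volume of the base is attained -/
theorem exists_der_base {k B E : Type*} [Field k] [CharZero k] [Field B] [Field E] [Algebra k B]
    [Algebra k E] [Algebra B E] [IsScalarTower k B E] [Algebra.EssFiniteType k B]
    [Algebra.EssFiniteType k E] {v : Valuation E ℤᵐ⁰} (hv : IsDivisorial k E v)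
    (hnt : ∃ a : B, a ≠ 0 ∧ v (algebraMap B E a) ≠ 1) {t : E} (ht : IsUnif v t) :
    ∃ (cB : Fin (dimension k B) → B) (hcB : LogBasis k (v.comap (algebraMap B E)) cB)
      (D : Fin (dimension k B) → Derivation k E E), (∀ i a, v a ≤ 1 → v (D i a) ≤ 1) ∧
      ∀ x : Fin (dimension k B) → B,
        v (algebraMap B E (jac hcB.tb x)) * ∏ j, v (algebraMap B E (cB j)) ≤
          v t * v (Matrix.det (Matrix.of fun i j => D i (algebraMap B E (x j)))) := by
  classical
  set vB := v.comap (algebraMap B E) with hvB
  have hB : IsDivisorial k B vB := hv.restrict hnt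
  obtain ⟨cB, tB, htB, hcB⟩ := hB.exists_adapted (ι := Fin (dimension k B)) (Fintype.card_fin _)
  have hlog := hcB.logBasis (Fintype.card_fin _)
  have hprod := hcB.prod
  -- the extended system
  obtain ⟨r, e, ξ, hξ, htB0, htB1, hcBeq⟩ := hcB
  have hcardr : dimension k B = r + 1 := by
    have := Fintype.card_congr e
    simpa using this
  have hξE : ResIndep k v (fun i => algebraMap B E (ξ i)) := by
    intro p hp
    have h1 := hξ p hp
    rw [hvB, Valuation.comap_apply] at h1
    rw [← h1]
    congr 1
    exact MvPolynomial.aeval_algebraMap_apply _ ξ p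
  have hnpos : 1 ≤ dimension k E := by
    obtain ⟨c, t', ht', r', e', -⟩ := hv.exists_adapted (ι := Fin (dimension k E))
      (Fintype.card_fin _)
    have := Fintype.card_congr e'
    simp at this
    omega
  obtain ⟨x₀, hx₀⟩ := exists_tb k B
  have hle : dimension k B ≤ dimension k E := by
    have h1 : AlgebraicIndependent k (fun i => algebraMap B E (x₀ i)) :=
      hx₀.1.map' (f := IsScalarTower.toAlgHom k B E) (algebraMap B E).injective
    have h2 := natCast_le_trdeg_of_le_dimension h1
    rw [← trdeg_eq_dimension] at h2
    exact_mod_cast h2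
  obtain ⟨s, hs⟩ : ∃ s, r + s = dimension k E - 1 := ⟨dimension k E - 1 - r, by omega⟩
  obtain ⟨y, hy⟩ := hv.exists_extend hξE hs
  set c : Option (Fin r ⊕ Fin s) → E := fun o => o.elim t (Sum.elim (fun i => algebraMap B E (ξ i))
    y) with hc
  have hadapt : Adapted k v c t := by
    refine ⟨r + s, Equiv.optionCongr finSumFinEquiv, (Sum.elim (fun i => algebraMap B E (ξ i))
      y) ∘ finSumFinEquiv.symm, ?_, ht.ne_zero, ht.lt_one, ?_⟩
    · intro p hp
      have h1 := hy (MvPolynomial.rename finSumFinEquiv.symm p) (by
        intro h0
        exact hp ((MvPolynomial.rename_injective _ finSumFinEquiv.symm.injective) (by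
          rw [h0, map_zero])))
      rw [MvPolynomial.aeval_rename] at h1
      exact h1
    · funext o
      rcases o with _ | o
      · rfl
      · simp [hc]
  have hcard : Fintype.card (Option (Fin r ⊕ Fin s)) = dimension k E := by
    simp
    omega
  have hreg := hadapt.regBasis hcard ht
  -- the derivations
  set emb : Fin (dimension k B) → Option (Fin r ⊕ Fin s) := fun i => (e i).map Sum.inl with hemb
  have hembinj : Function.Injective emb :=
    (Option.map_injective Sum.inl_injective).comp e.injective
  set D : Fin (dimension k B) → Derivation k E E := fun i => pd hreg.tb (emb i) with hD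
  have hDreg : ∀ i a, v a ≤ 1 → v (D i a) ≤ 1 := fun i a ha => hreg.der _ a ha
  set j₀ : Fin (dimension k B) := e.symm none with hj₀
  have hej₀ : e j₀ = none := by simp [hj₀]
  have hmat : (Matrix.of fun i j => D i (algebraMap B E (cB j))) =
      Matrix.updateCol 1 j₀ (fun i => D i (algebraMap B E tB)) := by
    ext i j
    rw [Matrix.of_apply, Matrix.updateCol_apply]
    split_ifs with hj
    · rw [hj, hcBeq]
      simp only [Function.comp_apply, hej₀, Option.elim_none]
    · obtain ⟨l, hl⟩ : ∃ l, e j = some l := by
        rcases h : e j with _ | l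
        · exact absurd (e.injective (h.trans hej₀.symm)) hj
        · exact ⟨l, rfl⟩
      have h1 : algebraMap B E (cB j) = c (emb j) := by
        rw [hcBeq, hemb]
        simp only [Function.comp_apply, hl, Option.elim_some, Option.map_some, hc, Sum.elim_inl]
      rw [h1, hD]
      simp only
      rw [pd_self, Matrix.one_apply]
      simp only [hembinj.eq_iff]
  have hdet : Matrix.det (Matrix.of fun i j => D i (algebraMap B E (cB j))) =
      D j₀ (algebraMap B E tB) := by
    rw [hmat, ← Matrix.cramer_apply, Matrix.cramer_one]
    rfl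
  have hDt : D j₀ t = 1 := by
    have h1 : t = c none := rfl
    have h2 : emb j₀ = none := by simp [hemb, hej₀]
    rw [hD]
    simp only
    rw [h2, h1, pd_self]
    simp
  have hder : v (algebraMap B E tB) ≤ v t * v (D j₀ (algebraMap B E tB)) := by
    refine ht.val_der (D j₀) (hDreg j₀) hDt ?_ (by simpa using htB0) htB1
    intro n hn
    have h1 := hv.const (n : k) (by exact_mod_cast hn)
    rwa [map_natCast] at h1
  refine ⟨cB, hlog, D, hDreg, fun x => ?_⟩
  have hprod' : ∏ i, v (algebraMap B E (cB i)) = v (algebraMap B E tB) := hprod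
  rw [det_der_algebraMap hlog.tb D x, hdet, hprod', map_mul, mul_left_comm]
  gcongr

end Pf72953.Fib
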