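import Mathlib
import Pool.Agent.Lib.Pf72953f.Key
import Pool.Agent.Lib.Pf72953f.ProdForm
import Pool.Agent.Lib.Pf72953w.Defs
import Pool.Agent.Lib.Pf72953w.Der

/-!
The restriction to the diagonal of a twisted form.
-/

set_option autoImplicit false
set_option linter.style.haveILetI false

open scoped WithZero

namespace Pf72953.Fib

/-- twisted forms in coordinates -/
def TwReg (k : Type*) {B L ι : Type*} [Field k] [CharZero k] [Field B] [Field L] [Algebra k B]
    [Algebra k L] [Algebra B L] [Fintype ι] [DecidableEq ι] (x : Fin (dimension k B) → B)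
    (z : ι → L) (m n : ℕ) : Set L :=
  {f | ∀ w : Valuation L ℤᵐ⁰, IsDivisorial k L w →
    ∀ D : Fin (dimension k B) → Derivation k L L, (∀ a b, w b ≤ 1 → w (D a b) ≤ 1) →
      ∀ (c : ι → L) (hc : RegBasis k w c),
        w (Matrix.det (Matrix.of fun a b => D a (algebraMap B L (x b))) ^ n * f) *
          w (jac hc.tb z) ^ m ≤ 1}

section tw

variable {k B L : Type*} [Field k] [CharZero k] [Field B] [Field L] [Algebra k B]
  [Algebra k L] [Algebra B L]

theorem TwReg.reindex {ι κ : Type*} [Fintype ι] [DecidableEq ι] [Fintype κ] [DecidableEq κ]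
    {x : Fin (dimension k B) → B} {z : ι → L} {m n : ℕ} {f : L}
    (hf : f ∈ TwReg k x z m n) (e : κ ≃ ι) : f ∈ TwReg k x (z ∘ e) m n := by
  intro w hw D hD c hc
  have hc' : RegBasis k w (c ∘ e.symm) := hc.reindex e.symm
  have h1 := hf w hw D hD _ hc'
  have h2 := jac_reindex e.symm hc.tb hc'.tb (z ∘ e)
  have h3 : (z ∘ e) ∘ e.symm = z := by funext i; simp
  rw [h3] at h2
  rwa [h2] at h1

theorem mem_twisted_iff [Algebra.EssFiniteType k L] {x : Fin (dimension k B) → B}
    {z : Fin (dimension k L) → L} (hz : IsTranscendenceBasis k z) (m n : ℕ)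
    (ω : PluriForm k L (dimension k L) m) :
    ω ∈ twisted k L x m n ↔ coef hz m ω ∈ TwReg k x z m n := by
  constructor
  · intro h w hw D hD c hc
    have h1 := h w hw D hD
    rw [mem_regularAt_iff hc, map_smul, coef_chain hz hc.tb m ω, smul_eq_mul, ← mul_assoc,
      map_mul, map_pow w (jac hc.tb z)] at h1
    exact h1
  · intro h w hw D hD
    obtain ⟨c, t, ht, hc⟩ := hw.exists_adapted (ι := Fin (dimension k L)) (Fintype.card_fin _)
    have hreg := hc.regBasis (Fintype.card_fin _) ht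
    rw [mem_regularAt_iff hreg, map_smul, coef_chain hz hreg.tb m ω, smul_eq_mul, ← mul_assoc,
      map_mul, map_pow w (jac hreg.tb z)]
    exact h w hw D hD c hreg

variable [CharZero B] [IsScalarTower k B L]

/-- twisted forms are regular relative to `B` -/
theorem TwReg.rel {ι : Type*} [Fintype ι] [DecidableEq ι] [Algebra.EssFiniteType k L]
    {x : Fin (dimension k B) → B} (hx : IsTranscendenceBasis k x)
    {σ : ι → L} (hσ : IsTranscendenceBasis B σ) {m n : ℕ} {f : L}
    (hf : f ∈ TwReg k x (Sum.elim (fun a => algebraMap B L (x a)) σ) m n) : f ∈ WReg B σ m := by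
  intro w hw c hc
  haveI : Algebra.EssFiniteType B L := Algebra.EssFiniteType.of_comp k B L
  have hwk : IsDivisorial k L w := Pf72953.Up.IsDivisorial.under hw
  obtain ⟨c₁, t, ht, hc₁⟩ := hw.exists_adapted (ι := ι) (card_eq_of_isTranscendenceBasis hσ)
  have hreg₁ := hc₁.regBasis (card_eq_of_isTranscendenceBasis hσ) ht
  have hck := Adapted_rel (k := k) hx.1 hc₁
  have hregk := hck.regBasis
    (card_eq_of_isTranscendenceBasis (tb_rel hx hσ)) ht
  have h1 := hf w hwk (fun a => pd hregk.tb (Sum.inl a)) (fun a b hb => hregk.der _ b hb) _ hregk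
  have hmat : (Matrix.of fun a b => pd hregk.tb (Sum.inl a) (algebraMap B L (x b))) =
      (1 : Matrix (Fin (dimension k B)) (Fin (dimension k B)) L) := by
    ext a b
    rw [Matrix.of_apply, Matrix.one_apply]
    have h2 := pd_self hregk.tb (Sum.inl a) (Sum.inl b)
    simp only [Sum.elim_inl, Sum.inl.injEq] at h2
    exact h2
  rw [hmat, Matrix.det_one, one_pow, one_mul, jac_rel hx hreg₁.tb hregk.tb x σ, jac_self, map_one,
    one_mul] at h1
  rw [jac_chain hreg₁.tb hc.tb σ, map_mul, mul_pow, ← mul_assoc, mul_comm (w f), mul_assoc]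
  refine mul_le_one' (pow_le_one' ?_ m) h1
  exact hc.jac_le c₁ hc₁.le_one

end tw

namespace TwAux

theorem pow_split' {M : Type*} [CommMonoid M] (a b c : M) {r m n q : ℕ} (h : r * m = n + q) :
    (a * b * c) ^ ((r + 1) * m) = (a * b ^ (r + 1) * c) ^ m * (a * c) ^ n * (a * c) ^ q := by
  rw [EstAAux.pow_split, h, pow_add (a * c) n q, ← mul_assoc]

theorem alg0 {M : Type*} [CommMonoid M] (f J d t : M) (m n : ℕ) :
    f * (J * t) ^ m * (t * d) ^ n = (d ^ n * f) * J ^ m * t ^ (m + n) := by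
  rw [mul_pow, mul_pow, pow_add]
  simp only [mul_comm, mul_left_comm, mul_assoc]

end TwAux

section est

variable {k B E L ι : Type*} [Field k] [CharZero k] [Field B] [CharZero B] [Field E]
  [Field L] [Algebra k B] [Algebra k E] [Algebra k L] [Algebra B E] [Algebra B L]
  [IsScalarTower k B E] [IsScalarTower k B L] [Algebra.EssFiniteType k B]
  [Algebra.EssFiniteType k E] [Fintype ι] [DecidableEq ι]

theorem estA' (hE : ClosedIn B E) {x : Fin (dimension k B) → B} (hx : IsTranscendenceBasis k x)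
    {s : ι → E} (hs : IsTranscendenceBasis B s) {r : ℕ} (hr : 1 ≤ r) {i : Fin r → E →ₐ[B] L}
    (h : IsFibrePower B E L i) {m n N : ℕ} (hn : n ≤ (r - 1) * m) (y : Fin N → Fin r → E)
    (hf : (∑ a, ∏ j, i j (y a j)) ∈ TwReg k x (coord i x s) m n) {v : Valuation E ℤᵐ⁰}
    (hv : IsDivisorial k E v) (hnt : ∃ a : B, a ≠ 0 ∧ v (algebraMap B E a) ≠ 1) {t : E}
    (ht : IsUnif v t) :
    ∃ (cB : Fin (dimension k B) → B) (hcB : LogBasis k (v.comap (algebraMap B E)) cB)
      (c : Fin (dimension k B) ⊕ ι → E) (hc : LogBasis k v c),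
      v (∑ a, ∏ j, y a j) * (v (jac hc.tb (Sum.elim (fun a => algebraMap B E (x a)) s)) *
          ∏ a, v (c a)) ^ (r * m) ≤
        v t ^ (m + n) * (v (algebraMap B E (jac hcB.tb x)) *
          ∏ a, v (algebraMap B E (cB a))) ^ ((r - 1) * m - n) := by
  haveI : Algebra.EssFiniteType B E := Algebra.EssFiniteType.of_comp k B E
  haveI : Algebra.EssFiniteType B L := h.essFiniteType
  haveI : Algebra.EssFiniteType k L := Algebra.EssFiniteType.comp k B L
  have hιB : Fintype.card (Fin (dimension k B)) = dimension k B := Fintype.card_fin _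
  have hι : Fintype.card ι = dimension B E := card_eq_of_isTranscendenceBasis hs
  obtain ⟨cB, tB, σ, W, hσ, hAB, hAE, hAW, hWdiv, hWi, hWf, hWt⟩ :=
    exists_W hιB hι hE hr h hv hnt ht
  have hzL : IsTranscendenceBasis k (coord i x s) := tb_rel hx (h.tb hs)
  have hcB : LogBasis k (v.comap (algebraMap B E)) cB := hAB.logBasis hιB
  have hc : LogBasis k v (Sum.elim (fun a => algebraMap B E (cB a)) σ) :=
    hAE.logBasis (card_eq_of_isTranscendenceBasis (tb_rel hcB.tb hσ))
  have hcL : LogBasis k W (coord i cB σ) :=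
    hAW.logBasis (card_eq_of_isTranscendenceBasis (tb_rel hcB.tb (h.tb hσ)))
  have hBL : ∀ b : B, W (algebraMap B L b) = v (algebraMap B E b) := by
    intro b
    rw [← (i ⟨0, hr⟩).commutes b, hWi]
  have hcomap : W.comap (algebraMap B L) = v.comap (algebraMap B E) := by
    ext b
    exact hBL b
  have hntL : ∃ a : B, a ≠ 0 ∧ W (algebraMap B L a) ≠ 1 := by
    obtain ⟨a, ha0, ha⟩ := hnt
    exact ⟨a, ha0, by rwa [hBL]⟩
  -- the regular basis and the vector fields
  obtain ⟨c₁, t₁, ht₁, hc₁⟩ := hWdiv.exists_adapted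
    (card_eq_of_isTranscendenceBasis hzL)
  have hreg := hc₁.regBasis (card_eq_of_isTranscendenceBasis hzL) ht₁
  have hlog₁ := hc₁.logBasis (card_eq_of_isTranscendenceBasis hzL)
  obtain ⟨cB₂, hcB₂, D, hD, hDx⟩ := exists_der_base hWdiv hntL ht₁
  have hb := hf W hWdiv D hD c₁ hreg
  have hQ : W (algebraMap B L (jac hcB₂.tb x)) * ∏ j, W (algebraMap B L (cB₂ j)) =
      v (algebraMap B E (jac hcB.tb x)) * ∏ j, v (algebraMap B E (cB j)) := by
    have hcB₂' : LogBasis k (v.comap (algebraMap B E)) cB₂ := by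
      rw [← hcomap]; exact hcB₂
    have h1 := hcB₂'.vol_eq hcB x
    simp only [Valuation.comap_apply] at h1
    simp only [hBL]
    exact h1
  have hP := hlog₁.vol_eq hcL (coord i x s)
  rw [hc₁.prod, hAW.prod, hBL] at hP
  have j1 : jac hcL.tb (coord i x s) =
      algebraMap B L (jac hcB.tb x) * jac (h.tb hσ) (rcoord i s) :=
    jac_rel hcB.tb (h.tb hσ) hcL.tb x (rcoord i s)
  rw [j1, jac_rcoord i hσ (h.tb hσ) s, map_mul, hBL, map_prod] at hP
  simp only [hWi, Finset.prod_const, Finset.card_univ, Fintype.card_fin] at hP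
  have hDx' := hDx x
  rw [hQ] at hDx'
  refine ⟨cB, hcB, _, hc, ?_⟩
  have j2 : jac hc.tb (Sum.elim (fun a => algebraMap B E (x a)) s) =
      algebraMap B E (jac hcB.tb x) * jac hσ s := jac_rel hcB.tb hσ hc.tb x s
  have p1 : ∏ a, v (algebraMap B E (cB a)) = v (algebraMap B E tB) := hAB.prod
  rw [p1] at hDx'
  rw [j2, hAE.prod, p1, map_mul]
  obtain ⟨r', rfl⟩ : ∃ r', r = r' + 1 := ⟨r - 1, by omega⟩
  rw [Nat.add_sub_cancel] at hn ⊢
  obtain ⟨q, hq⟩ : ∃ q, r' * m = n + q := ⟨r' * m - n, by omega⟩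
  rw [show r' * m - n = q by omega, TwAux.pow_split' _ _ _ hq, ← mul_assoc]
  refine mul_le_mul' ?_ le_rfl
  have ht₁' : W t₁ ≤ v t := hWt t₁ ht₁.lt_one
  set δ := W (Matrix.det (Matrix.of fun i j => D i (algebraMap B L (x j)))) with hδ
  calc v (∑ a, ∏ j, y a j) * ((v (algebraMap B E (jac hcB.tb x)) * v (jac hσ s) ^ (r' + 1) *
        v (algebraMap B E tB)) ^ m * (v (algebraMap B E (jac hcB.tb x)) *
          v (algebraMap B E tB)) ^ n)
      ≤ W (∑ a, ∏ j, i j (y a j)) * ((v (algebraMap B E (jac hcB.tb x)) *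
        v (jac hσ s) ^ (r' + 1) * v (algebraMap B E tB)) ^ m *
          (v (algebraMap B E (jac hcB.tb x)) * v (algebraMap B E tB)) ^ n) :=
        mul_le_mul' (hWf N y) le_rfl
    _ = W (∑ a, ∏ j, i j (y a j)) * (W (jac hlog₁.tb (coord i x s)) * W t₁) ^ m *
          (v (algebraMap B E (jac hcB.tb x)) * v (algebraMap B E tB)) ^ n := by
        rw [hP]; exact (mul_assoc _ _ _).symm
    _ ≤ W (∑ a, ∏ j, i j (y a j)) * (W (jac hlog₁.tb (coord i x s)) * W t₁) ^ m *
          (W t₁ * δ) ^ n := by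
        gcongr
    _ = (δ ^ n * W (∑ a, ∏ j, i j (y a j))) * W (jac hlog₁.tb (coord i x s)) ^ m *
          W t₁ ^ (m + n) := TwAux.alg0 _ _ _ _ _ _
    _ ≤ 1 * v t ^ (m + n) := by
        gcongr
        rw [map_mul, map_pow] at hb
        exact hb
    _ = v t ^ (m + n) := one_mul _

/-- the order of the restriction to the diagonal at a valuation trivial on `B` -/
theorem estB' (hE : ClosedIn B E) {x : Fin (dimension k B) → B} (hx : IsTranscendenceBasis k x)
    {s : ι → E} (hs : IsTranscendenceBasis B s) {r : ℕ} (hr : 1 ≤ r) {i : Fin r → E →ₐ[B] L}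
    (h : IsFibrePower B E L i) {m N : ℕ} (y : Fin N → Fin r → E)
    (hf' : (∑ a, ∏ j, i j (y a j)) ∈ WReg B (rcoord i s) m) {v : Valuation E ℤᵐ⁰}
    (hv : IsDivisorial k E v) (htriv : ∀ b : B, b ≠ 0 → v (algebraMap B E b) = 1)
    {c : Fin (dimension k B) ⊕ ι → E} (hc : RegBasis k v c) :
    v (∑ a, ∏ j, y a j) *
      v (jac hc.tb (Sum.elim (fun a => algebraMap B E (x a)) s)) ^ (r * m) ≤ 1 := by
  classical
  have : Algebra.EssFiniteType B E := Algebra.EssFiniteType.of_comp k B E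
  have : Algebra.EssFiniteType B L := h.essFiniteType
  have : Algebra.EssFiniteType k L := Algebra.EssFiniteType.comp k B L
  obtain ⟨n', b, g, hg, hfe⟩ := IsFibrePower.kunneth hE hs m r h _ hf'
  have hsum : ∑ a, ∏ j, y a j = ∑ a, algebraMap B E (b a) * ∏ j, g a j := by
    have h1 := h.diag hE hs hr y
      (fun a j => if j = ⟨0, hr⟩ then algebraMap B E (b a) * g a j else g a j) (by
        rw [hfe]
        refine Finset.sum_congr rfl fun a _ => ?_
        rw [EstBAux.prod_ite (fun j => i j (g a j)) ⟨0, hr⟩ (algebraMap B L (b a))]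
        refine Finset.prod_congr rfl fun j _ => ?_
        split_ifs
        · rw [map_mul, AlgHom.commutes]
        · rfl)
    rw [h1]
    refine Finset.sum_congr rfl fun a _ => ?_
    rw [EstBAux.prod_ite (fun j => g a j) ⟨0, hr⟩ (algebraMap B E (b a))]
  -- an adapted system over `B`
  have hvB : IsDivisorial B E v := IsDivisorial_over hv htriv
  have hι : Fintype.card ι = dimension B E := card_eq_of_isTranscendenceBasis hs
  obtain ⟨c₁, t, ht, hc₁⟩ := hvB.exists_adapted hι
  have reg1 : RegBasis B v c₁ := hc₁.regBasis hι ht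
  have hA : Adapted k v (Sum.elim (fun a => algebraMap B E (x a)) c₁) t := Adapted_rel hx.1 hc₁
  have hιk : Fintype.card (Fin (dimension k B) ⊕ ι) = dimension k E :=
    card_eq_of_isTranscendenceBasis (tb_rel hx hs)
  have regk : RegBasis k v (Sum.elim (fun a => algebraMap B E (x a)) c₁) := hA.regBasis hιk ht
  have hj1 : jac regk.tb (Sum.elim (fun a => algebraMap B E (x a)) s) = jac reg1.tb s := by
    rw [jac_rel hx reg1.tb regk.tb x s, jac_self, map_one, one_mul]
  have hj2 : v (jac hc.tb (Sum.elim (fun a => algebraMap B E (x a)) s)) ≤ v (jac reg1.tb s) := by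
    rw [jac_chain regk.tb hc.tb, hj1, map_mul]
    exact mul_le_of_le_one_left' (hc.jac_le _ hA.le_one)
  refine (mul_le_mul' le_rfl (pow_le_pow_left' hj2 (r * m))).trans ?_
  rw [hsum, ← map_pow, ← map_mul, Finset.sum_mul]
  refine Valuation.map_sum_le _ fun a _ => ?_
  have h2 : algebraMap B E (b a) * (∏ j, g a j) * jac reg1.tb s ^ (r * m) =
      algebraMap B E (b a) * ∏ j, (g a j * jac reg1.tb s ^ m) := by
    rw [Finset.prod_mul_distrib, Finset.prod_const, Finset.card_univ, Fintype.card_fin, ← pow_mul,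
      mul_comm m r, mul_assoc]
  rw [h2, map_mul, map_prod]
  refine mul_le_one' ?_ (Finset.prod_le_one' fun j _ => ?_)
  · rcases eq_or_ne (b a) 0 with h3 | h3
    · rw [h3, map_zero, map_zero]
      exact zero_le_one
    · exact (htriv _ h3).le
  · rw [map_mul, map_pow]
    exact hg a j v hvB c₁ reg1

namespace TwAux

theorem alg1 {G : Type*} [CommMonoid G] (ρ h J t : G) (r m₁ m₂ n : ℕ) :
    (ρ ^ m₂ * h ^ n * J ^ (r * m₁ * m₂)) * t ^ (r * m₁ * m₂) =
      (ρ * (J * t) ^ (r * m₁)) ^ m₂ * h ^ n := by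
  rw [mul_pow ρ, ← pow_mul, mul_pow J t]
  simp only [mul_comm, mul_left_comm, mul_assoc]

theorem alg2 {G : Type*} [CommMonoid G] (Q h t : G) (q m₁ m₂ : ℕ) :
    (t ^ m₁ * Q ^ q) ^ m₂ * h ^ q = t ^ (m₁ * m₂) * (h * Q ^ m₂) ^ q := by
  have e : q * m₂ = m₂ * q := mul_comm _ _
  rw [mul_pow, ← pow_mul, ← pow_mul, mul_pow h, ← pow_mul, e]
  simp only [mul_comm, mul_left_comm, mul_assoc]

end TwAux

theorem key' (hE : ClosedIn B E) {x : Fin (dimension k B) → B} (hx : IsTranscendenceBasis k x)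
    {s : ι → E} (hs : IsTranscendenceBasis B s) {r : ℕ} (hr : 1 ≤ r) {i : Fin r → E →ₐ[B] L}
    (h : IsFibrePower B E L i) {m₁ n₁ m₂ N : ℕ} (hn : n₁ ≤ (r - 1) * m₁) (y : Fin N → Fin r → E)
    (hf : (∑ a, ∏ j, i j (y a j)) ∈ TwReg k x (coord i x s) m₁ n₁) {hB : B}
    (hh : hB ∈ WOrb k E x m₂) :
    (∑ a, ∏ j, y a j) ^ m₂ * algebraMap B E hB ^ ((r - 1) * m₁ - n₁) ∈
      WReg k (Sum.elim (fun a => algebraMap B E (x a)) s) (r * m₁ * m₂) := by
  intro v hv c hc
  have hι := card_eq_of_isTranscendenceBasis hc.tb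
  set z : Fin (dimension k B) ⊕ ι → E := Sum.elim (fun a => algebraMap B E (x a)) s with hz
  set ρ : E := ∑ a, ∏ j, y a j with hρ
  rw [map_mul, map_pow, map_pow]
  set q := (r - 1) * m₁ - n₁ with hq
  have e : r * m₁ * m₂ = (m₁ + n₁) * m₂ + m₂ * q := by
    obtain ⟨p, hp⟩ : ∃ p, r = p + 1 := ⟨r - 1, by omega⟩
    have h1 : p * m₁ = n₁ + q := by
      rw [hp, Nat.add_sub_cancel] at hn hq
      omega
    rw [hp]
    calc (p + 1) * m₁ * m₂ = (p * m₁ + m₁) * m₂ := by ring
      _ = (n₁ + q + m₁) * m₂ := by rw [h1]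
      _ = _ := by ring
  by_cases hnt : ∃ a : B, a ≠ 0 ∧ v (algebraMap B E a) ≠ 1
  · obtain ⟨t, ht⟩ := exists_unif v hv.nontrivial
    obtain ⟨cB, hcB, c', hc', h1⟩ := estA' hE hx hs hr h hn y hf hv hnt ht
    obtain ⟨cB', hcB', h2⟩ := hh v hv hnt t ht
    have h3 := hcB.vol_eq hcB' x
    simp only [Valuation.comap_apply] at h3
    rw [← h3] at h2
    obtain ⟨c₁, t₁, ht₁, hc₁⟩ := hv.exists_adapted hι
    have hL := hc₁.logBasis hι
    have h4 := hc'.vol_eq hL z
    rw [hc₁.prod] at h4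
    rw [h4] at h1
    have htt : v t₁ = v t := le_antisymm (ht.le _ ht₁.lt_one) (ht₁.le _ ht.lt_one)
    rw [htt] at h1
    set Q := v (algebraMap B E (jac hcB.tb x)) * ∏ i, v (algebraMap B E (cB i)) with hQ
    set J₁ := v (jac hL.tb z) with hJ₁
    have h5 : (v ρ ^ m₂ * v (algebraMap B E hB) ^ q * J₁ ^ (r * m₁ * m₂)) *
        v t ^ (r * m₁ * m₂) ≤ v t ^ (r * m₁ * m₂) := by
      calc (v ρ ^ m₂ * v (algebraMap B E hB) ^ q * J₁ ^ (r * m₁ * m₂)) *
            v t ^ (r * m₁ * m₂)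
          = (v ρ * (J₁ * v t) ^ (r * m₁)) ^ m₂ * v (algebraMap B E hB) ^ q :=
            TwAux.alg1 _ _ _ _ _ _ _ _
        _ ≤ (v t ^ (m₁ + n₁) * Q ^ q) ^ m₂ * v (algebraMap B E hB) ^ q :=
            mul_le_mul' (pow_le_pow_left' h1 m₂) le_rfl
        _ = v t ^ ((m₁ + n₁) * m₂) * (v (algebraMap B E hB) * Q ^ m₂) ^ q :=
            TwAux.alg2 _ _ _ _ _ _
        _ ≤ v t ^ ((m₁ + n₁) * m₂) * (v t ^ m₂) ^ q :=
            mul_le_mul' le_rfl (pow_le_pow_left' h2 _)
        _ = v t ^ (r * m₁ * m₂) := by rw [← pow_mul, ← pow_add, e]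
    have hpos : 0 < v t ^ (r * m₁ * m₂) := by
      refine pow_pos (zero_lt_iff.mpr ?_) _
      rw [Valuation.ne_zero_iff]
      exact ht.ne_zero
    have h6 : v ρ ^ m₂ * v (algebraMap B E hB) ^ q * J₁ ^ (r * m₁ * m₂) ≤ 1 :=
      le_of_mul_le_mul_right (h5.trans_eq (one_mul _).symm) hpos
    have h7 : v (jac hc.tb z) ≤ J₁ := by
      rw [jac_chain hL.tb hc.tb z, map_mul]
      calc v (jac hc.tb c₁) * v (jac hL.tb z) ≤ 1 * v (jac hL.tb z) :=
            mul_le_mul' (hc.jac_le c₁ hc₁.le_one) le_rfl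
        _ = J₁ := one_mul _
    exact (mul_le_mul' le_rfl (pow_le_pow_left' h7 _)).trans h6
  · have htriv : ∀ b : B, b ≠ 0 → v (algebraMap B E b) = 1 := by
      intro b hb
      by_contra h1
      exact hnt ⟨b, hb, h1⟩
    haveI : Algebra.EssFiniteType B E := Algebra.EssFiniteType.of_comp k B E
    haveI : Algebra.EssFiniteType B L := h.essFiniteType
    haveI : Algebra.EssFiniteType k L := Algebra.EssFiniteType.comp k B L
    have h1 := estB' hE hx hs hr h y (TwReg.rel hx (h.tb hs) hf) hv htriv hc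
    have h2 : v (algebraMap B E hB) ≤ 1 := by
      rcases eq_or_ne hB 0 with h0 | h0
      · rw [h0, map_zero, map_zero]
        exact zero_le_one
      · exact (htriv _ h0).le
    rw [KeyAux.alg3]
    exact mul_le_one' (pow_le_one' h1 _) (pow_le_one' h2 _)

end est

/-- relative forms on the fibre power when the fibre has Kodaira dimension at most zero -/
theorem prod_form' {B E L ι : Type*} [Field B] [CharZero B] [Field E] [Field L] [Algebra B E]
    [Algebra B L] [Algebra.EssFiniteType B E] [Fintype ι] [DecidableEq ι] (hE : ClosedIn B E)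
    {s : ι → E}
    (hs : IsTranscendenceBasis B s) {r : ℕ} (hr : 1 ≤ r) {i : Fin r → E →ₐ[B] L}
    (h : IsFibrePower B E L i) (hF : ¬ KodairaGE B E 1) {m : ℕ} (hm : 1 ≤ m) :
    ∃ g : E, ∀ f ∈ WReg B (rcoord i s) m, ∃ b : B, f = algebraMap B L b * ∏ j, i j g := by
  classical
  have : Algebra.EssFiniteType B L := h.essFiniteType
  by_cases hzero : ∀ g ∈ WReg B s m, g = 0
  · refine ⟨0, fun f hf => ⟨0, ?_⟩⟩
    obtain ⟨n, c, g, hg, hfg⟩ := h.kunneth hE hs m r f hf
    rw [hfg, map_zero, zero_mul]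
    refine Finset.sum_eq_zero fun a _ => ?_
    have : ∏ j, i j (g a j) = 0 :=
      Finset.prod_eq_zero (Finset.mem_univ (⟨0, hr⟩ : Fin r)) (by rw [hzero _ (hg a _), map_zero])
    rw [this, mul_zero]
  · push Not at hzero
    obtain ⟨g, hgm, hg0⟩ := hzero
    refine ⟨g, fun f hf => ?_⟩
    obtain ⟨n, c, G, hG, hfG⟩ := h.kunneth hE hs m r f hf
    choose lam hlam using fun a j => ProdForm.prop hE hs hF hm hg0 hgm (hG a j)
    refine ⟨∑ a, c a * ∏ j, lam a j, ?_⟩
    rw [hfG, map_sum, Finset.sum_mul]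
    refine Finset.sum_congr rfl fun a _ => ?_
    have h1 : ∏ j, i j (G a j) = algebraMap B L (∏ j, lam a j) * ∏ j, i j g := by
      rw [map_prod, ← Finset.prod_mul_distrib]
      refine Finset.prod_congr rfl fun j _ => ?_
      rw [hlam a j, map_mul, AlgHom.commutes]
    rw [h1, map_mul, mul_assoc]

end Pf72953.Fib
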