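import Mathlib
import Pool.Agent.Lib.Pf72953f.Main
import Pool.Agent.Lib.Pf72953w.Est

/-!
The diagonal theorem for twisted forms.
-/

set_option autoImplicit false
set_option linter.style.haveILetI false

open scoped WithZero

namespace Pf72953.Fib

section

variable {k B E L : Type*} [Field k] [CharZero k] [Field B] [Field E] [Field L] [Algebra k B]
  [Algebra k E] [Algebra k L] [Algebra B E] [Algebra B L] [IsScalarTower k B E]
  [IsScalarTower k B L] [Algebra.EssFiniteType k B] [Algebra.EssFiniteType k E]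

/-- coordinates for the statement on the diagonal -/
theorem TwDiagGE.exists_coord {K₀ : Type*} [Field K₀] [Algebra K₀ E] {r : ℕ}
    {i : Fin r → E →ₐ[B] L} (h : IsFibrePower B E L i) {c : ℕ} (hc : TwDiagGE k B K₀ E L i c) :
    ∃ (m n N : ℕ) (x : Fin (dimension k B) → B) (s : Fin (dimension B E) → E)
      (y : Fin (c + 1) → Fin N → Fin r → E),
      1 ≤ m ∧ n < (r - 1) * m ∧ IsTranscendenceBasis k x ∧ IsTranscendenceBasis B s ∧
      (∀ l, (∑ a, ∏ j, i j (y l a j)) ∈ TwReg k x (coord i x s) m n) ∧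
      (∑ a, ∏ j, y 0 a j) ≠ 0 ∧
      AlgebraicIndependent K₀ (fun l : Fin c => (∑ a, ∏ j, y l.succ a j) / ∑ a, ∏ j, y 0 a j) := by
  haveI : CharZero B := charZero_of_injective_algebraMap (algebraMap k B).injective
  haveI : Algebra.EssFiniteType B E := Algebra.EssFiniteType.of_comp k B E
  haveI : Algebra.EssFiniteType B L := h.essFiniteType
  haveI : Algebra.EssFiniteType k L := Algebra.EssFiniteType.comp k B L
  obtain ⟨m, n, N, x, s, e, y, hm, hn, hx, hs, hreg, hne, hind⟩ := hc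
  refine ⟨m, n, N, x, s, y, hm, hn, hx, hs, fun l => ?_, hne, hind⟩
  have htb : IsTranscendenceBasis k (coord i x s) := tb_rel hx (h.tb hs)
  have htb' : IsTranscendenceBasis k (coord i x s ∘ e) := (isTranscendenceBasis_equiv e).mpr htb
  have h1 := (mem_twisted_iff htb' m n _).mp (hreg l)
  rw [map_smul, coef_self, smul_eq_mul, mul_one] at h1
  have h2 := TwReg.reindex h1 e.symm
  have h3 : (coord i x s ∘ e) ∘ e.symm = coord i x s := by funext a; simp
  rwa [h3] at h2

/-- the main theorem: forms from the diagonal and from the base -/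
theorem main_aux' (hE : ClosedIn B E) {r : ℕ} (hr : 1 ≤ r) {i : Fin r → E →ₐ[B] L}
    (h : IsFibrePower B E L i) {m₁ n₁ N₁ : ℕ} (hn : n₁ ≤ (r - 1) * m₁)
    {x : Fin (dimension k B) → B}
    (hx : IsTranscendenceBasis k x) {s : Fin (dimension B E) → E}
    (hs : IsTranscendenceBasis B s) (hm₁ : 1 ≤ m₁) {c : ℕ} {y : Fin (c + 1) → Fin N₁ → Fin r → E}
    (hf : ∀ l, (∑ a, ∏ j, i j (y l a j)) ∈ TwReg k x (coord i x s) m₁ n₁)
    (hne : (∑ a, ∏ j, y 0 a j) ≠ 0) {m₂ : ℕ} (hm₂ : 1 ≤ m₂) {h₀ : B} (hh₀ : h₀ ∈ WOrb k E x m₂)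
    (hh₀ne : h₀ ≠ 0) {a : ℕ} {f : Fin a → B} (hff : ∀ l, f l * h₀ ∈ WOrb k E x m₂) {N : ℕ}
    {ψ : Fin N → E} (hψ : AlgebraicIndependent k ψ)
    (hψS : ∀ q, (∃ l : Fin c, ψ q = ((∑ a, ∏ j, y l.succ a j) / ∑ a, ∏ j, y 0 a j) ^ m₂) ∨
      ∃ l, ψ q = algebraMap B E (f l) ^ ((r - 1) * m₁ - n₁)) :
    KodairaGE k E N := by
  classical
  haveI : CharZero B := charZero_of_injective_algebraMap (algebraMap k B).injective
  obtain ⟨zE, hzE⟩ := exists_tb k E
  have htb : IsTranscendenceBasis k (Sum.elim (fun a => algebraMap B E (x a)) s) := tb_rel hx hs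
  have hcard : Fintype.card (Fin (dimension k B) ⊕ Fin (dimension B E)) = dimension k E :=
    card_eq_of_isTranscendenceBasis htb
  let e : Fin (dimension k E) ≃ Fin (dimension k B) ⊕ Fin (dimension B E) :=
    (Fintype.equivFinOfCardEq hcard).symm
  have htb' : IsTranscendenceBasis k ((Sum.elim (fun a => algebraMap B E (x a)) s) ∘ e) :=
    (isTranscendenceBasis_equiv e).mpr htb
  set ρ : Fin (c + 1) → E := fun l => ∑ a, ∏ j, y l a j with hρ
  set q₀ := (r - 1) * m₁ - n₁ with hq₀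
  have hkey : ∀ l, ∀ hB ∈ WOrb k E x m₂, ρ l ^ m₂ * algebraMap B E hB ^ q₀ ∈
      WReg k (Sum.elim (fun a => algebraMap B E (x a)) s) (r * m₁ * m₂) := fun l hB hhB =>
    key' hE hx hs hr h hn (y l) (hf l) hhB
  refine KodairaGE.of_coord htb' (m := r * m₁ * m₂)
    (f₀ := ρ 0 ^ m₂ * algebraMap B E h₀ ^ q₀) ?_ ?_ ?_ hψ ?_
  · have h1 : r * m₁ * m₂ ≠ 0 := Nat.mul_ne_zero (Nat.mul_ne_zero (by omega) (by omega)) (by omega)
    omega
  · exact WReg.reindex (hkey 0 h₀ hh₀) e
  · refine mul_ne_zero (pow_ne_zero _ hne) (pow_ne_zero _ ?_)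
    simpa using hh₀ne
  · intro q
    rcases hψS q with ⟨l, hl⟩ | ⟨l, hl⟩
    · have h1 := WReg.reindex (hkey l.succ h₀ hh₀) e
      have h2 : ψ q * (ρ 0 ^ m₂ * algebraMap B E h₀ ^ q₀) =
          ρ l.succ ^ m₂ * algebraMap B E h₀ ^ q₀ := by
        rw [hl, ← mul_assoc]
        congr 1
        rw [← mul_pow, div_mul_cancel₀ _ hne]
      rw [h2]
      exact h1
    · have h1 := WReg.reindex (hkey 0 _ (hff l)) e
      have h2 : ψ q * (ρ 0 ^ m₂ * algebraMap B E h₀ ^ q₀) =
          ρ 0 ^ m₂ * algebraMap B E (f l * h₀) ^ q₀ := by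
        rw [hl, map_mul, mul_pow]
        ring
      rw [h2]
      exact h1

theorem diag_rel' (hE : ClosedIn B E) {r : ℕ} (hr : 1 ≤ r) {i : Fin r → E →ₐ[B] L}
    (h : IsFibrePower B E L i) {a c : ℕ} (ha : OrbCoord k B E a) (hc : TwDiagGE k B B E L i c) :
    KodairaGE k E (a + c) := by
  obtain ⟨m₁, n, N, x, s, y, hm₁, hn, hx, hs, hf, hne, hind⟩ := hc.exists_coord h
  obtain ⟨m₂, hm₂, h₀, hh₀, hh₀ne, f, hfind, hff⟩ := OrbCoord_any hx ha
  have h1 := algebraicIndependent_pow hind hm₂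
  have hpos : 1 ≤ (r - 1) * m₁ - n := by omega
  have h2 := algebraicIndependent_pow hfind hpos
  have h3 : AlgebraicIndependent k (Sum.elim (fun l : Fin c =>
      ((∑ a, ∏ j, y l.succ a j) / ∑ a, ∏ j, y 0 a j) ^ m₂)
      (algebraMap B E ∘ fun l => f l ^ ((r - 1) * m₁ - n))) := h2.sumElim_comp h1
  let e : Fin (a + c) ≃ Fin c ⊕ Fin a := finSumFinEquiv.symm.trans (Equiv.sumComm _ _)
  refine main_aux' hE (by omega) h hn.le hx hs hm₁ hf hne hm₂ hh₀ hh₀ne hff
    (h3.comp e e.injective) ?_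
  intro q
  rcases hq : e q with l | l
  · left
    refine ⟨l, ?_⟩
    rw [Function.comp_apply, hq]
    rfl
  · right
    refine ⟨l, ?_⟩
    rw [Function.comp_apply, hq]
    simp

theorem diag_abs' (hE : ClosedIn B E) {r : ℕ} (hr : 1 ≤ r) {i : Fin r → E →ₐ[B] L}
    (h : IsFibrePower B E L i) {a c : ℕ} (ha : OrbCoord k B E a) (hc : TwDiagGE k B k E L i c) :
    KodairaGE k E c := by
  obtain ⟨m₁, n, N, x, s, y, hm₁, hn, hx, hs, hf, hne, hind⟩ := hc.exists_coord h
  obtain ⟨m₂, hm₂, h₀, hh₀, hh₀ne, f, hfind, hff⟩ := OrbCoord_any hx ha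
  exact main_aux' hE hr h hn.le hx hs hm₁ hf hne hm₂ hh₀ hh₀ne hff
    (algebraicIndependent_pow hind hm₂) (fun q => Or.inl ⟨q, rfl⟩)

/-- if the fibre has Kodaira dimension at most zero, nothing is lost on the diagonal -/
theorem twDiagGE_of_fibre (hE : ClosedIn B E) {r : ℕ} (hr : 1 ≤ r) {i : Fin r → E →ₐ[B] L}
    (h : IsFibrePower B E L i) (hF : ¬ KodairaGE B E 1) {c : ℕ}
    (hc : TwKodairaGE k B L (r - 1) c) : TwDiagGE k B k E L i c := by
  classical
  haveI : CharZero B := charZero_of_injective_algebraMap (algebraMap k B).injective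
  haveI : Algebra.EssFiniteType B E := Algebra.EssFiniteType.of_comp k B E
  haveI : Algebra.EssFiniteType B L := h.essFiniteType
  haveI : Algebra.EssFiniteType k L := Algebra.EssFiniteType.comp k B L
  obtain ⟨m, n, x, hm, hn, hx, ω₀, hω₀, hω₀ne, f, hf, hff⟩ := hc
  obtain ⟨s, hs⟩ := exists_tb B E
  have htb : IsTranscendenceBasis k (coord i x s) := tb_rel hx (h.tb hs)
  have hcard : Fintype.card (Fin (dimension k B) ⊕ Fin r × Fin (dimension B E)) =
      dimension k L := card_eq_of_isTranscendenceBasis htb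
  let e : Fin (dimension k L) ≃ Fin (dimension k B) ⊕ Fin r × Fin (dimension B E) :=
    (Fintype.equivFinOfCardEq hcard).symm
  have htb' : IsTranscendenceBasis k (coord i x s ∘ e) := (isTranscendenceBasis_equiv e).mpr htb
  set f₀ : L := coef htb' m ω₀ with hf₀def
  have hf₀ : f₀ ∈ TwReg k x (coord i x s ∘ e) m n := (mem_twisted_iff htb' m n ω₀).mp hω₀
  have hff' : ∀ l, f l * f₀ ∈ TwReg k x (coord i x s ∘ e) m n := by
    intro l
    have h1 := (mem_twisted_iff htb' m n _).mp (hff l)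
    rwa [map_smul, smul_eq_mul] at h1
  have hf₀ne : f₀ ≠ 0 := by
    intro h0
    apply hω₀ne
    rw [eq_coef_smul htb' m ω₀, ← hf₀def, h0, zero_smul]
  have hback : ∀ g, g ∈ TwReg k x (coord i x s ∘ e) m n → g ∈ WReg B (rcoord i s) m := by
    intro g hg
    have h2 := TwReg.reindex hg e.symm
    have h3 : (coord i x s ∘ e) ∘ e.symm = coord i x s := by funext a; simp
    rw [h3] at h2
    exact TwReg.rel hx (h.tb hs) h2
  obtain ⟨g, hg⟩ := prod_form' hE hs hr h hF hm
  obtain ⟨b₀, hb₀⟩ := hg f₀ (hback _ hf₀)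
  choose b hb using fun l => hg (f l * f₀) (hback _ (hff' l))
  have hb₀ne : algebraMap B L b₀ ≠ 0 := fun h0 => hf₀ne (by rw [hb₀, h0, zero_mul])
  have hGne : ∏ j, i j g ≠ 0 := fun h0 => hf₀ne (by rw [hb₀, h0, mul_zero])
  have hb₀ne' : b₀ ≠ 0 := fun h0 => hb₀ne (by rw [h0, map_zero])
  have hgne : g ≠ 0 := by
    rintro rfl
    apply hGne
    simp only [map_zero]
    exact Finset.prod_eq_zero (Finset.mem_univ (⟨0, hr⟩ : Fin r)) rfl
  have hfb : ∀ l, f l = algebraMap B L (b l / b₀) := by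
    intro l
    have h1 := hb l
    rw [hb₀, ← mul_assoc] at h1
    have h2 := mul_right_cancel₀ hGne h1
    rw [map_div₀, ← h2, mul_div_cancel_right₀ _ hb₀ne]
  let B' : Fin (c + 1) → B := Fin.cons b₀ b
  let y : Fin (c + 1) → Fin 1 → Fin r → E := fun l _ j =>
    if j = ⟨0, hr⟩ then algebraMap B E (B' l) * g else g
  have hprodE : ∀ l, (∑ a, ∏ j, y l a j) = algebraMap B E (B' l) * g ^ r := by
    intro l
    rw [Fin.sum_univ_one]
    have h1 : ∀ j, y l 0 j = (if j = ⟨0, hr⟩ then algebraMap B E (B' l) else 1) * g := by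
      intro j
      change (if j = ⟨0, hr⟩ then algebraMap B E (B' l) * g else g) = _
      split_ifs <;> simp
    rw [Finset.prod_congr rfl fun j _ => h1 j, Finset.prod_mul_distrib, Finset.prod_ite_eq']
    simp
  have hprodL : ∀ l, (∑ a, ∏ j, i j (y l a j)) = algebraMap B L (B' l) * ∏ j, i j g := by
    intro l
    rw [Fin.sum_univ_one]
    have h1 : ∀ j, i j (y l 0 j) =
        (if j = ⟨0, hr⟩ then algebraMap B L (B' l) else 1) * i j g := by
      intro j
      change i j (if j = ⟨0, hr⟩ then algebraMap B E (B' l) * g else g) = _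
      split_ifs
      · rw [map_mul, AlgHom.commutes]
      · rw [one_mul]
    rw [Finset.prod_congr rfl fun j _ => h1 j, Finset.prod_mul_distrib, Finset.prod_ite_eq']
    simp
  refine ⟨m, n, 1, x, s, e, y, hm, hn, hx, hs, ?_, ?_, ?_⟩
  · intro l
    rw [mem_twisted_iff htb', map_smul, coef_self, smul_eq_mul, mul_one, hprodL]
    refine Fin.cases ?_ (fun l => ?_) l
    · change algebraMap B L b₀ * _ ∈ _
      rw [← hb₀]; exact hf₀
    · change algebraMap B L (b l) * _ ∈ _
      rw [← hb l]; exact hff' l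
  · rw [hprodE]
    refine mul_ne_zero ?_ (pow_ne_zero _ hgne)
    simpa [B'] using hb₀ne'
  · have h1 : (fun l : Fin c => (∑ a, ∏ j, y l.succ a j) / ∑ a, ∏ j, y 0 a j) =
        fun l => algebraMap B E (b l / b₀) := by
      funext l
      rw [hprodE, hprodE, map_div₀]
      have h2 : algebraMap B E b₀ ≠ 0 := by simpa using hb₀ne'
      have h3 : g ^ r ≠ 0 := pow_ne_zero _ hgne
      change algebraMap B E (b l) * g ^ r / (algebraMap B E b₀ * g ^ r) = _
      field_simp
    rw [h1]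
    have h2 : AlgebraicIndependent k (fun l => b l / b₀) := by
      have h3 : (fun l => algebraMap B L (b l / b₀)) = f := (funext hfb).symm
      rw [← h3] at hf
      exact (AlgHom.algebraicIndependent_iff (IsScalarTower.toAlgHom k B L)
        (algebraMap B L).injective).mp hf
    exact h2.map' (f := IsScalarTower.toAlgHom k B E) (algebraMap B E).injective

end

/-- pluricanonical forms are twisted forms -/
theorem twisted_zero {k B L : Type*} [Field k] [Field B] [Field L] [Algebra k B]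
    [Algebra k L] [Algebra B L] (x : Fin (dimension k B) → B) (m : ℕ) :
    twisted k L x m 0 = pluricanonical k L m := by
  ext ω
  constructor
  · intro h w hw
    have h1 := h w hw (fun _ => 0) (fun a z _ => by simp)
    rwa [pow_zero, one_smul] at h1
  · intro h w hw D _
    rw [pow_zero, one_smul]
    exact h w hw

theorem KodairaGE.tw {k B L : Type*} [Field k] [Field B] [Field L] [Algebra k B]
    [Algebra k L] [Algebra B L] [Algebra.EssFiniteType k B] {q c : ℕ} (hq : 1 ≤ q)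
    (h : KodairaGE k L c) : TwKodairaGE k B L q c := by
  obtain ⟨x, hx⟩ := exists_tb k B
  obtain ⟨m, hm, ω₀, hω₀, hne, f, hf, hff⟩ := h
  refine ⟨m, 0, x, hm, Nat.mul_pos hq hm, hx, ω₀, ?_, hne, f, hf, fun l => ?_⟩
  · rw [twisted_zero]; exact hω₀
  · rw [twisted_zero]; exact hff l

theorem DiagGE.tw {k B K₀ E L : Type*} [Field k] [Field B] [Field K₀] [Field E] [Field L]
    [Algebra k B] [Algebra K₀ E] [Algebra k L] [Algebra B E] [Algebra B L] {r : ℕ} (hr : 2 ≤ r)
    {i : Fin r → E →ₐ[B] L} {c : ℕ} (h : DiagGE k B K₀ E L i c) : TwDiagGE k B K₀ E L i c := by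
  obtain ⟨m, n, x, s, e, y, hm, hx, hs, hreg, hne, hind⟩ := h
  refine ⟨m, 0, n, x, s, e, y, hm, Nat.mul_pos (by omega) hm, hx, hs, fun l => ?_, hne, hind⟩
  rw [twisted_zero]; exact hreg l

end Pf72953.Fib
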